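import Pool.Agent.Helper86.GreedyDisproof

set_option autoImplicit false

namespace Pool.Agent.Results.MP_8ea6c6_co.Disproof

open Pool.Agent.Helper86.Greedy

/-- For all `t ≥ 2` and `N` there is a greedy set `S` of `t` integers, all greater than `1`,
with gcd `1`, which is a minimal generating set of its semigroup, whose Frobenius number `F` is
at least `N` (and exceeds all elements of `S` when `t ≥ 3`), such that `S ∪ {F}` is not greedy. -/
theorem result : ∀ t : ℕ, 2 ≤ t → ∀ N : ℕ, ∃ (S : Finset ℕ) (F : ℕ),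
    S.card = t ∧ (∀ s ∈ S, 1 < s) ∧ S.gcd id = 1 ∧
    (∀ s ∈ S, s ∉ AddSubmonoid.closure ((S.erase s : Finset ℕ) : Set ℕ)) ∧
    FrobeniusNumber F (S : Set ℕ) ∧ N ≤ F ∧ (3 ≤ t → ∀ s ∈ S, s < F) ∧
    IsGreedy S ∧ ¬ IsGreedy (insert F S) := by
  intro t ht N
  rcases Nat.lt_or_ge t 3 with h3 | h3
  · have ht2 : t = 2 := by omega
    subst ht2
    have hodd : (2 * N + 7) % 2 = 1 := by omega
    refine ⟨insert (2 * N + 7) (E 1), 2 * N + 7 - 2, ?_, ?_, gcd_family (le_refl _) hodd,
      mem_erase_closure (le_refl _) (by omega) hodd, frob_one (by omega) hodd, by omega,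
      by omega, isGreedy_family (le_refl _) (by omega) hodd, not_greedy_one (by omega) hodd⟩
    · rw [Finset.card_insert_of_notMem, card_E]
      intro h
      obtain ⟨i, h1, h2, h3⟩ := mem_E.mp h
      omega
    · intro s hs
      rcases Finset.mem_insert.mp hs with h | h
      · omega
      · obtain ⟨i, h1, h2, rfl⟩ := mem_E.mp h; omega
  · obtain ⟨m, rfl⟩ : ∃ m, t = m + 1 := ⟨t - 1, by omega⟩
    have hm : 2 ≤ m := by omega
    set b := 2 * N + 10 * m + 1 with hb
    have hodd : b % 2 = 1 := by omega
    refine ⟨insert b (E m), b + 2 * m - 2, ?_, ?_, gcd_family (by omega) hodd,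
      mem_erase_closure (by omega) (by omega) hodd, frob_big hm (by omega) hodd, by omega,
      ?_, isGreedy_family (by omega) (by omega) hodd, not_greedy_big hm (by omega) hodd⟩
    · rw [Finset.card_insert_of_notMem, card_E]
      intro h
      obtain ⟨i, h1, h2, h3⟩ := mem_E.mp h
      omega
    · intro s hs
      rcases Finset.mem_insert.mp hs with h | h
      · omega
      · obtain ⟨i, h1, h2, rfl⟩ := mem_E.mp h; omega
    · intro _ s hs
      rcases Finset.mem_insert.mp hs with h | h
      · omega
      · obtain ⟨i, h1, h2, rfl⟩ := mem_E.mp h; omega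

end Pool.Agent.Results.MP_8ea6c6_co.Disproof
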