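import Pool.Agent.Helper86.GreedyTwo

set_option autoImplicit false

namespace Pool.Agent.Results.MP_8ea6c6_co.TwoGenerators

open Pool.Agent.Helper86.Greedy

/-- Classification in the two-generator case: for coprime `2 ≤ a < b` with Frobenius number `F`,
the set `{a, b, F}` is greedy if and only if `a ≥ 3` or `b ≤ 5`. -/
theorem result : ∀ a b F : ℕ, 2 ≤ a → a < b → Nat.Coprime a b →
    FrobeniusNumber F ({a, b} : Set ℕ) → (IsGreedy {a, b, F} ↔ (3 ≤ a ∨ b ≤ 5)) :=
  fun _ _ _ ha hab hco hF => two_generators ha hab hco hF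

end Pool.Agent.Results.MP_8ea6c6_co.TwoGenerators
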